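import Mathlib
import Pool.Agent.Q182.BohrBoolean

/-!
# A precompact abelian group that is not a quotient of a reflexive precompact group
-/

namespace Pool.Agent.Results.MP_329fc6_gt.NotQuotient

open Q182.Bohr

universe u

/-- There is a Hausdorff precompact abelian topological group `H` that is not topologically
isomorphic to `G ⧸ N` (with the quotient topology) for any reflexive precompact abelian group `G`
(in any universe) and any closed subgroup `N` of `G`. -/
theorem result :
    ∃ (H : Type) (_ : AddCommGroup H) (_ : TopologicalSpace H),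
      IsTopologicalAddGroup H ∧ T2Space H ∧ IsPrecompactGroup H ∧
      ∀ (G : Type u) [AddCommGroup G] [TopologicalSpace G] [IsTopologicalAddGroup G] [T2Space G],
        IsPrecompactGroup G → IsReflexive G →
        ∀ N : AddSubgroup G, IsClosed (N : Set G) → IsEmpty (G ⧸ N ≃ₜ+ H) := by
  refine ⟨H, inferInstance, inferInstance, inferInstance, inferInstance, precompact_H, ?_⟩
  intro G _ _ _ _ hG hr N _
  refine ⟨fun e => ?_⟩
  refine no_reflexive G hG hr ((e : G ⧸ N →+ H).comp (QuotientAddGroup.mk' N)) ?_ ?_
  · exact e.continuous.comp QuotientAddGroup.continuous_mk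
  · intro x
    obtain ⟨y, rfl⟩ := e.surjective x
    obtain ⟨g, rfl⟩ := QuotientAddGroup.mk_surjective y
    exact ⟨g, rfl⟩

end Pool.Agent.Results.MP_329fc6_gt.NotQuotient
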